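import Mathlib
import Pool.Agent.U239.BL.Ord
import Pool.Agent.U373.BL.KER
import Pool.Agent.U187.BL.PIG
import Pool.Agent.U803.BL.ANA
import Pool.Agent.U427.BL.LOG
import Pool.Agent.U200.BL.BPT
import Pool.Agent.U741.BL.PCK
import Pool.Agent.U688.BL.MUL
import Pool.Agent.Results.MP_18ea5f_nt.BilinearOverNumberFields

/-!
# The order of growth `B log B`, over EVERY number field, for the smooth complete intersections of `k`
divisors of type `(1,1)` in `ℙ^(N-1) × ℙ^(N-1)`, `N ≥ 3 k`

* `M i`, `i < k`: `N × N` matrices over the number field `F`.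
* `OnX M P Q`: the point `(P, Q)` satisfies the `k` equations `x ᵀ M i y = 0`, which define `X`.
* `Smooth M`: the Jacobian criterion at the complex points of `X`, for all embeddings of `F`: the
  gradients of the `k` equations are linearly independent, that is, for no combination
  `∑ l i M i` both `(∑ l i M i) y = 0` and `x ᵀ (∑ l i M i) = 0`.
* `InU M P Q`: the `k` linear forms `x ᵀ M i` are linearly independent, and so are the `k` linear
  forms `M i y`: a Zariski open subset `U` of `X`.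
* `Anticanonical M h`: the function `h` on the pairs of rational points is, on `X`, comparable with
  `(H(P) H(Q)) ^ (N - k)`, where `H` is the height relative to `F` (`mulHeight` of Mathlib, without the
  root of order `[F : ℚ]`). The anticanonical bundle of `X` is `O(N - k, N - k)`, so that all relative
  adelic heights on it have this property.

The theorem: there are `c > 0` and `B₀` such that `U` has at least `c B log B` rational points with
`h ≤ B` for all `B ≥ B₀`, and for every `ε > 0` there is `C` such that there are at most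
`C B ^ (1 + ε)` for all `B ≥ 1`. Since `Pic X = ℤ ²`, `B log B` is the conjectured order.

For `k = 1` the variety `X` is a flag variety, where the asymptotic formula is known over all number
fields (Franke, Manin and Tschinkel 1989); over `ℚ` the starting file
`CompleteIntersectionsAllHeights` has the asymptotic formula for all `k`.

Proof of the lower bound. The fibre over `P` is the projective space of the solutions `y` of `k` linear
equations with coefficients of size `H(P)`. By the pigeonhole principle there are many integral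
solutions in a ball of radius `R`, at least `c R ^ (d r) / H(P) ^ k`, `d = [F : ℚ]`, `r = N - k`. For the number
`a(R)` of the integral solutions one has `q ^ (d r) a(R) ≤ a(q (ρ + R))`, since all classes modulo
`q` have representatives of size `q ρ`, `ρ = C H(P) ^ (k / d)` (Cramer). So few of the integral
solutions are multiples of points of much smaller height, and there are at least `c T ^ r / H(P) ^ k`
rational points of height at most `T` on the fibre if `T ≥ C H(P) ^ (k r)`. The sum over the points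
`P` with `H(P) ≤ B ^ δ` gives the lower bound. The upper bound is that of
`MP_18ea5f_nt.BilinearOverNumberFields`.
-/

set_option autoImplicit false

namespace Pool.Agent.Results.MP_1acd66_nt.BilinearNumberFieldsOrder

open Module Matrix

variable {F : Type} [Field F] {N k : ℕ}

/-- The pair `(P, Q)` of points lies on `X`. -/
def OnX (M : Fin k → Matrix (Fin N) (Fin N) F) (P Q : Projectivization F (Fin N → F)) : Prop :=
  ∀ i, P.rep ⬝ᵥ M i *ᵥ Q.rep = 0

/-- The Jacobian criterion for `X`. -/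
def Smooth (M : Fin k → Matrix (Fin N) (Fin N) F) : Prop :=
  ∀ (σ : F →+* ℂ) (x y : Fin N → ℂ), x ≠ 0 → y ≠ 0 → (∀ i, x ⬝ᵥ (M i).map σ *ᵥ y = 0) →
    ∀ l : Fin k → ℂ, l ≠ 0 →
      (∑ i, l i • (M i).map σ) *ᵥ y ≠ 0 ∨ x ᵥ* (∑ i, l i • (M i).map σ) ≠ 0

/-- The open subset `U`. -/
def InU (M : Fin k → Matrix (Fin N) (Fin N) F) (P Q : Projectivization F (Fin N → F)) : Prop :=
  LinearIndependent F (fun i => P.rep ᵥ* M i) ∧ LinearIndependent F (fun i => M i *ᵥ Q.rep)

/-- The function `h` is, on `X`, comparable with the standard anticanonical height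
`(H(P) H(Q)) ^ (N - k)`. -/
def Anticanonical [NumberField F] (M : Fin k → Matrix (Fin N) (Fin N) F)
    (h : Projectivization F (Fin N → F) × Projectivization F (Fin N → F) → ℝ) : Prop :=
  ∃ c₁ c₂ : ℝ, 0 < c₁ ∧ ∀ P Q, OnX M P Q →
    c₁ * (P.mulHeight * Q.mulHeight) ^ (N - k) ≤ h (P, Q) ∧
      h (P, Q) ≤ c₂ * (P.mulHeight * Q.mulHeight) ^ (N - k)

/-- The points of `U` with `h ≤ B`. -/
def Pts (M : Fin k → Matrix (Fin N) (Fin N) F)
    (h : Projectivization F (Fin N → F) × Projectivization F (Fin N → F) → ℝ) (B : ℝ) :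
    Set (Projectivization F (Fin N → F) × Projectivization F (Fin N → F)) :=
  {z | OnX M z.1 z.2 ∧ InU M z.1 z.2 ∧ h z ≤ B}

open Pool.Agent.N852.GR Pool.Agent.U239.BL in
/-- the lower bound for the standard height -/
theorem lower (F : Type) [Field F] [NumberField F] (k N : ℕ) (hk : 1 ≤ k) (hN : 3 * k ≤ N)
    (M : Fin k → Matrix (Fin N) (Fin N) F) (hM : Smooth M) :
    ∃ c B₀ : ℝ, 0 < c ∧ ∀ B : ℝ, B₀ ≤ B → c * B * Real.log B ≤ ((PX M B).ncard : ℝ) := by
  have hrc : RC M (N - k + 1) := Pool.Agent.U239.BI.smt M hM (by omega)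
  have hL := latP F
  have hBad := Pool.Agent.N713.GR.badP F (dimP F) (trkP F) celP (cntP F hL) (rnkP F) (pbP F)
  have hCon := t_CON (Pool.Agent.U741.BL.t_PCK F) (Pool.Agent.U373.BL.KER.t_KER F)
    (Pool.Agent.U187.BL.t_PIG F) (Pool.Agent.U688.BL.t_MUL F) Pool.Agent.U803.BL.t_ANA
  exact glo hCon (Pool.Agent.U200.BL.t_BPT F) hBad Pool.Agent.U427.BL.t_LOG hk hN hrc

/-- **The order of growth for smooth complete intersections of type `(1,1), …, (1,1)` over number
fields.** -/
theorem result (F : Type) [Field F] [NumberField F] (k N : ℕ) (hk : 1 ≤ k) (hN : 3 * k ≤ N)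
    (M : Fin k → Matrix (Fin N) (Fin N) F) (hM : Smooth M)
    (h : Projectivization F (Fin N → F) × Projectivization F (Fin N → F) → ℝ)
    (hh : Anticanonical M h) :
    (∃ c B₀ : ℝ, 0 < c ∧ ∀ B : ℝ, B₀ ≤ B → c * B * Real.log B ≤ ((Pts M h B).ncard : ℝ)) ∧
    ∀ ε : ℝ, 0 < ε → ∃ C : ℝ, ∀ B : ℝ, 1 ≤ B →
      (Pts M h B).Finite ∧ ((Pts M h B).ncard : ℝ) ≤ C * B ^ (1 + ε) := by
  obtain ⟨c₁, c₂, hc₁, hh⟩ := hh
  have hr : 0 < N - k := by omega
  have hrR : (0 : ℝ) < ((N - k : ℕ) : ℝ) := by exact_mod_cast hr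
  have hcast : (N : ℝ) - k = ((N - k : ℕ) : ℝ) := by
    rw [Nat.cast_sub (by omega)]
  -- the upper bound
  have hup : ∀ ε : ℝ, 0 < ε → ∃ C : ℝ, ∀ B : ℝ, 1 ≤ B →
      (Pts M h B).Finite ∧ ((Pts M h B).ncard : ℝ) ≤ C * B ^ (1 + ε) := by
    intro ε hε
    obtain ⟨C, hC⟩ := (Pool.Agent.Results.MP_18ea5f_nt.BilinearOverNumberFields.result F k N hk hN
      M hM).2 (fun _ => ((N - k : ℕ) : ℝ)) (fun _ => hrR) ε hε
    have hexp : ((N : ℝ) - k) * max (1 / ((N - k : ℕ) : ℝ)) (1 / ((N - k : ℕ) : ℝ)) + ε =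
        1 + ε := by
      rw [max_self, hcast, mul_one_div, div_self hrR.ne']
    rw [hexp] at hC
    set κ : ℝ := max (1 / c₁) 1 with hκ
    have hκ1 : 1 ≤ κ := le_max_right _ _
    refine ⟨C * κ ^ (1 + ε), fun B hB => ?_⟩
    have hB0 : 0 < B := by linarith
    have hT : 1 ≤ κ * B := one_le_mul_of_one_le_of_one_le hκ1 hB
    obtain ⟨h1, h2⟩ := hC (κ * B) hT
    have hsub : Pts M h B ⊆ {z : Projectivization F (Fin N → F) × Projectivization F (Fin N → F) |
        Pool.Agent.Results.MP_18ea5f_nt.BilinearOverNumberFields.OnX M z.1 z.2 ∧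
        Pool.Agent.Results.MP_18ea5f_nt.BilinearOverNumberFields.InU M z.1 z.2 ∧
          z.1.mulHeight ^ ((N - k : ℕ) : ℝ) * z.2.mulHeight ^ ((N - k : ℕ) : ℝ) ≤ κ * B} := by
      rintro ⟨P, Q⟩ ⟨h3, h4, h5⟩
      refine ⟨h3, h4, ?_⟩
      have h6 := (hh P Q h3).1
      have h7 : (P.mulHeight * Q.mulHeight) ^ (N - k) ≤ 1 / c₁ * B := by
        rw [one_div, ← div_eq_inv_mul, le_div_iff₀ hc₁]
        linarith [h6.trans h5]
      show P.mulHeight ^ ((N - k : ℕ) : ℝ) * Q.mulHeight ^ ((N - k : ℕ) : ℝ) ≤ κ * B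
      rw [Real.rpow_natCast, Real.rpow_natCast, ← mul_pow]
      exact h7.trans (mul_le_mul_of_nonneg_right (le_max_left _ _) hB0.le)
    refine ⟨h1.subset hsub, ?_⟩
    have h8 := Set.ncard_le_ncard hsub h1
    refine ((Nat.cast_le (α := ℝ)).2 h8 |>.trans h2).trans (le_of_eq ?_)
    rw [Real.mul_rpow (by linarith) hB0.le]
    ring
  refine ⟨?_, hup⟩
  obtain ⟨c, B₀, hc, hlow⟩ := lower F k N hk hN M hM
  set κ : ℝ := max c₂ 1 with hκ
  have hκ1 : 1 ≤ κ := le_max_right _ _
  have hκ0 : 0 < κ := by linarith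
  refine ⟨c / (2 * κ), max (κ * B₀) (κ ^ 2), by positivity, fun B hB => ?_⟩
  have hB2 : κ ^ 2 ≤ B := (le_max_right _ _).trans hB
  have hB3 : κ * B₀ ≤ B := (le_max_left _ _).trans hB
  have hB1 : 1 ≤ B := (one_le_pow₀ hκ1).trans hB2
  have hB0 : 0 < B := by linarith
  have hBκ : B₀ ≤ B / κ := by
    rw [le_div_iff₀ hκ0]
    linarith
  have h1 := hlow (B / κ) hBκ
  obtain ⟨C, hC⟩ := hup 1 one_pos
  have hfin := (hC B hB1).1
  have hsub : Pool.Agent.U239.BL.PX M (B / κ) ⊆ Pts M h B := by
    rintro ⟨P, Q⟩ ⟨h3, h4, h5⟩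
    refine ⟨h3, h4, ?_⟩
    have h6 := (hh P Q h3).2
    have h7 : 0 ≤ (P.mulHeight * Q.mulHeight) ^ (N - k) := by
      have h8 := Pool.Agent.U239.BL.one_le_ht P
      have h9 := Pool.Agent.U239.BL.one_le_ht Q
      positivity
    have h5' : (P.mulHeight * Q.mulHeight) ^ (N - k) ≤ B / κ := h5
    rw [le_div_iff₀ hκ0] at h5'
    calc h (P, Q) ≤ c₂ * (P.mulHeight * Q.mulHeight) ^ (N - k) := h6
      _ ≤ κ * (P.mulHeight * Q.mulHeight) ^ (N - k) :=
          mul_le_mul_of_nonneg_right (le_max_left _ _) h7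
      _ ≤ B := by linarith
  have h2 : ((Pool.Agent.U239.BL.PX M (B / κ)).ncard : ℝ) ≤ ((Pts M h B).ncard : ℝ) := by
    exact_mod_cast Set.ncard_le_ncard hsub hfin
  refine le_trans ?_ (h1.trans h2)
  have hlog : Real.log B / 2 ≤ Real.log (B / κ) := by
    rw [Real.log_div hB0.ne' hκ0.ne']
    have h3 : Real.log (κ ^ 2) ≤ Real.log B := Real.log_le_log (by positivity) hB2
    rw [Real.log_pow] at h3
    push_cast at h3
    linarith
  calc c / (2 * κ) * B * Real.log B = c * (B / κ) * (Real.log B / 2) := by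
        field_simp
    _ ≤ c * (B / κ) * Real.log (B / κ) := mul_le_mul_of_nonneg_left hlog (by positivity)

end Pool.Agent.Results.MP_1acd66_nt.BilinearNumberFieldsOrder
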