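import Pool.Agent.U115.WN.Fin

/-!
# The exact order of magnitude for the spaces of quadrics in linear subspaces

Let `3 ≤ k < n`, `S` the tautological bundle of rank `k` on the Grassmannian `Gr(k, n)`, and
`X = ℙ(Sym² S*)`, the variety of the pairs (`V`, quadric in `ℙ(V)`): the space of all quadrics of dimension
`k - 2` in the linear subspaces of dimension `k - 1` of `ℙ^(n-1)`, a component of the Hilbert scheme (`k = 3`: the
Hilbert scheme of conics; `k = 4`: quadric surfaces). It is a smooth projective rational variety of Picard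
number 2. `ξ` is the dual of the tautological line bundle and `G` the Plücker class. Then
`-K = k (k + 1) / 2 ξ + (n + k + 1) G`, which is big; the nef cone is generated by `G` and `ξ + 2 G`, so `X` is weak
Fano if and only if `n ≥ k² - 1` (for example the conics in `ℙ⁷`; Fano if and only if `n ≥ k²`).

`U`: the nondegenerate quadrics. Its rational points are the pairs of a primitive lattice `Λ` of rank `k` in
`ℤⁿ` and a primitive nondegenerate integral quadratic form `f` on `Λ`, up to the sign of `f`. The height for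
`ξ` is the norm of `f`, the smallest `h` with `|f v| ≤ h |v|²`; the height for `G` is the covolume of `Λ`.
`H = h ^ (k (k + 1) / 2) * covol ^ (n + k + 1)` is a relative height for `-K`.

Theorem. The number of the rational points of `U` with `H ≤ T` is between `c T log T` and `C T log T` for all
large `T`: the order of magnitude of the conjecture of Manin and Peyre, `T (log T) ^ (ρ - 1)` with `ρ = 2` (each
point is counted twice, with `f` and with `- f`). For example: the number of the smooth conics in `ℙ^(n-1)`.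

Proof. Upper bound: a reduced basis of the lattice, with lengths `λ_i`; at most
`C ∏ λ_i ^ n / ∏_{i < j} (λ_j / λ_i)` lattices have a basis with the lengths `λ_i`; the coefficients of `f` are at
most `C h λ_i λ_j`; as `f` is nondegenerate `1 ≤ C h λ_i λ_(k+1-i)`, and the loss from the coefficients which
must vanish is at most `(λ_1 / λ_k) ^ (1/2) ∏_{i < j} (λ_j / λ_i)` (for `k ≥ 3`), so the sum over the shapes
converges. Lower bound: there are at least `c λ ^ (n k)` primitive lattices with `λ_i ≤ C λ` for all `i` and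
covolume at least `c λ ^ k`, and on each of them at least `c q ^ (k (k + 1) / 2)` primitive forms with
coefficients at most `q`, which have norm at most `C q / λ²`; sum over `λ = s ^ j`.

Authors (projects WM and WN): helper115 (plan, statements, assembly); the packages of WM: helper580, helper333,
helper643, helper95, helper784; the packages of WN: helper439, helper480, helper559, helper618, helper44,
helper427, helper591, helper399, helper803, helper329, helper574; the reduction theory is from the starting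
library (`Pool/Agent/N507/PQ/Hrb.lean`).
-/

set_option autoImplicit false

open Matrix

namespace Pool.Agent.Results.MP_1acd66_nt.QuadricsOrder

variable {n k : ℕ}

/-- the lattice generated by the columns of `B` -/
def lattice (B : Matrix (Fin n) (Fin k) ℤ) : Set (Fin n → ℤ) := {v | ∃ c : Fin k → ℤ, B *ᵥ c = v}

/-- the columns of `B` are a basis of `Λ` -/
def IsBasis (Λ : Set (Fin n → ℤ)) (B : Matrix (Fin n) (Fin k) ℤ) : Prop :=
  (∀ c : Fin k → ℤ, B *ᵥ c = 0 → c = 0) ∧ lattice B = Λ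

/-- a rational point of `U`: a primitive lattice `Λ` of rank `k` in `ℤⁿ` (the integer vectors of a
subspace of dimension `k`) and a nondegenerate primitive integral quadratic form `f` on `Λ`, with the
coefficients `c i j`, `i ≤ j`, in a basis `B`; `f` is put equal to zero outside of `Λ` -/
def IsPoint (k : ℕ) (Λ : Set (Fin n → ℤ)) (f : (Fin n → ℤ) → ℤ) : Prop :=
  (∀ (v : Fin n → ℤ) (d : ℤ), d ≠ 0 → d • v ∈ Λ → v ∈ Λ) ∧ (∀ v, v ∉ Λ → f v = 0) ∧
    ∃ (B : Matrix (Fin n) (Fin k) ℤ) (c : Matrix (Fin k) (Fin k) ℤ), IsBasis Λ B ∧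
      (∀ i j, j < i → c i j = 0) ∧ (∀ x : Fin k → ℤ, f (B *ᵥ x) = ∑ i, ∑ j, c i j * x i * x j) ∧
      (c + cᵀ).det ≠ 0 ∧ ∀ d : ℤ, (∀ i j, d ∣ c i j) → IsUnit d

/-- the covolume of the lattice generated by the columns -/
noncomputable def covol (B : Matrix (Fin n) (Fin k) ℤ) : ℝ := √((Bᵀ * B).det : ℝ)

/-- the norm of `f` is at most `h` -/
def NormLE (Λ : Set (Fin n → ℤ)) (f : (Fin n → ℤ) → ℤ) (h : ℝ) : Prop :=
  0 < h ∧ ∀ v ∈ Λ, |(f v : ℝ)| ≤ h * ∑ l, (v l : ℝ) ^ 2

/-- the rational points of `U` with anticanonical height at most `T` -/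
def Points (n k : ℕ) (T : ℝ) : Set (Set (Fin n → ℤ) × ((Fin n → ℤ) → ℤ)) :=
  {p | IsPoint k p.1 p.2 ∧ ∃ (B : Matrix (Fin n) (Fin k) ℤ) (h : ℝ), IsBasis p.1 B ∧
    NormLE p.1 p.2 h ∧ h ^ ((k : ℝ) * (k + 1) / 2) * covol B ^ ((n : ℝ) + k + 1) ≤ T}

theorem result (n k : ℕ) (hk : 3 ≤ k) (hn : k < n) :
    (∀ (Λ : Set (Fin n → ℤ)) (B B' : Matrix (Fin n) (Fin k) ℤ), IsBasis Λ B → IsBasis Λ B' →
      covol B = covol B') ∧
    ∃ c C T₁ : ℝ, 0 < c ∧ 2 ≤ T₁ ∧ ∀ T : ℝ, T₁ ≤ T → (Points n k T).Finite ∧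
      c * (T * Real.log T) ≤ ((Points n k T).ncard : ℝ) ∧
      ((Points n k T).ncard : ℝ) ≤ C * (T * Real.log T) := by
  have hV := Pool.Agent.U333.WM.t_COV
  refine ⟨fun Λ B B' h h' => (hV.1 n k B B' h.1 h'.1 (h.2.trans h'.2.symm)).2, ?_⟩
  obtain ⟨c, C, T₁, h1, h2, h3⟩ := Pool.Agent.U115.WN.t_oqua n k hk hn
  refine ⟨c, C, T₁, h1, h2, fun T hT => ?_⟩
  have h4 := h3 T hT
  set S := {p : Pool.Agent.U115.WM.QPt n k | ∃ (B : Matrix (Fin n) (Fin k) ℤ) (h : ℝ),
      Pool.Agent.U115.WM.Inj B ∧ Pool.Agent.U115.WM.lat B = p.Λ ∧ 0 < h ∧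
      (∀ v ∈ p.Λ, |(p.f v : ℝ)| ≤ h * ∑ l, (v l : ℝ) ^ 2) ∧
      h ^ ((k : ℝ) * (k + 1) / 2) * Pool.Agent.U115.WM.cov B ^ ((n : ℝ) + k + 1) ≤ T} with hS
  have heq : Points n k T = (fun p : Pool.Agent.U115.WM.QPt n k => (p.Λ, p.f)) '' S := by
    ext ⟨Λ, f⟩
    constructor
    · rintro ⟨⟨h1, h2, B, c, hB, hc1, hc2, hc3, hc4⟩, B', h, hB', hh, hT'⟩
      refine ⟨⟨Λ, f, B, c, hB.1, hB.2, h1, ⟨hc1, hc2, fun v hv => h2 v ?_⟩, hc3, hc4⟩,
        ⟨B', h, hB'.1, hB'.2, hh.1, hh.2, hT'⟩, rfl⟩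
      have : Pool.Agent.U115.WM.lat B = Λ := hB.2
      rwa [← this]
    · rintro ⟨p, ⟨B', h, hi, hl, h0, hh, hT'⟩, hp⟩
      obtain ⟨rfl, rfl⟩ := Prod.mk.inj hp
      obtain ⟨B, c, hB, hBl, hs, ⟨hc1, hc2, hc5⟩, hc3, hc4⟩ := p.ex
      refine ⟨⟨hs, fun v hv => hc5 v (by rwa [hBl]), B, c, ⟨hB, hBl⟩, hc1, hc2, hc3, hc4⟩,
        B', h, ⟨hi, hl⟩, ⟨h0, hh⟩, hT'⟩
  have hinj : Function.Injective (fun p : Pool.Agent.U115.WM.QPt n k => (p.Λ, p.f)) := by
    rintro ⟨Λ, f, e⟩ ⟨Λ', f', e'⟩ h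
    obtain ⟨rfl, rfl⟩ := Prod.mk.inj h
    rfl
  rw [heq, Set.ncard_image_of_injective _ hinj]
  exact ⟨h4.1.image _, h4.2⟩

end Pool.Agent.Results.MP_1acd66_nt.QuadricsOrder
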