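import Pool.Agent.U115.WN.Fin

/-!
# The exact order of magnitude for symmetric and alternating matrices of rank `k`

Let `ε = 1` or `ε = -1`, `3 ≤ k < n`, `k` even if `ε = -1`. Let `S` be the tautological bundle of rank `k` on the
Grassmannian `Gr(k, n)` of the `k`-dimensional subspaces of `ℚⁿ`, and `X = ℙ(Sym² S)` for `ε = 1`, `X = ℙ(Λ² S)` for
`ε = -1`: a smooth projective rational variety of Picard number 2 over `ℚ`, the desingularisation of the variety
of the `n × n` matrices `A` with `Aᵀ = ε A` of rank at most `k` up to scalars. `ξ` is the class with the sections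
given by the entries of the matrix (the dual of the tautological line bundle), `G` is the Plücker class of
`Gr(k, n)`. Then `-K = k (k + ε) / 2 ξ + (n - k - ε) G`; the nef cone is generated by `ξ` and `G`, so `-K` is nef, and
it is big: `X` is a smooth weak Fano variety (Fano unless `ε = 1`, `k = n - 1`).

`U`: the points where the determinant is not zero. Its rational points are the rational matrices of rank
`k` with `Aᵀ = ε A` up to scalars, i.e. the primitive integer matrices `A` of rank `k` up to sign; `V` is the column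
space. The height for `ξ` is the largest absolute value `ht A` of the entries; the height for `G` is the covolume
of the lattice of the integer vectors in `V`. `H = ht ^ (k (k + ε) / 2) * covol ^ (n - k - ε)` is a relative height
for `-K`.

Theorem. The number of the rational points of `U` with `H ≤ T` is between `c T log T` and `C T log T` for all
large `T`: the order of magnitude of the conjecture of Manin and Peyre, `T (log T) ^ (ρ - 1)` with `ρ = 2` (each
point is counted twice, as `A` and as `- A`).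

Proof. Upper bound: a reduced basis of the lattice; at most `C ∏ λ_i ^ n / ∏_{i < j} (λ_j / λ_i)` lattices have a
basis with the lengths `λ_i`; in the reduced basis `A = B Q Bᵀ` with `|Q i j| ≤ C ht(A) / (λ_i λ_j)`; as
`det Q ≠ 0`, `λ_i λ_(k+1-i) ≤ C ht(A)`, and the loss from the coefficients `Q i j` which must vanish is at most
`(λ_1 / λ_k) ^ (1/2) ∏_{i < j} (λ_j / λ_i)` (for `k ≥ 3`), so the sum over the shapes `(λ_2 / λ_1, ..., λ_k / λ_1)`
converges. Lower bound: there are at least `c λ ^ (n k)` primitive lattices with `λ_i ≤ C λ` for all `i` and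
covolume at least `c λ ^ k`, and on each of them at least `c q ^ (k (k + ε) / 2)` primitive matrices `Q` with
`Qᵀ = ε Q`, entries at most `q` and `det Q ≠ 0`; sum over `λ = s ^ j`.

Authors (projects WM and WN): helper115 (plan, statements, assembly); the packages of WM: helper580, helper333,
helper461, helper95, helper618, helper255; the packages of WN: helper439, helper480, helper981, helper618,
helper44, helper427, helper591, helper165, helper438, helper660, helper329, helper574; the reduction theory is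
from the starting library (`Pool/Agent/N507/PQ/Hrb.lean`).
-/

set_option autoImplicit false

open Matrix

namespace Pool.Agent.Results.MP_1acd66_nt.RankKMatricesOrder

variable {n k : ℕ}

/-- `A` is a primitive integer matrix of rank `k` with `Aᵀ = ε A`: a rational point of `U` -/
def IsPoint (ε : ℤ) (k : ℕ) (A : Matrix (Fin n) (Fin n) ℤ) : Prop :=
  Aᵀ = ε • A ∧ (∀ d : ℤ, (∀ i j, d ∣ A i j) → IsUnit d) ∧ (A.map (Int.cast : ℤ → ℚ)).rank = k

/-- the columns of `B` are a basis of the lattice of the integer vectors in the column space of `A` -/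
def IsBasis (A : Matrix (Fin n) (Fin n) ℤ) (B : Matrix (Fin n) (Fin k) ℤ) : Prop :=
  (∀ c : Fin k → ℤ, B *ᵥ c = 0 → c = 0) ∧
    ∀ v : Fin n → ℤ, (∃ c : Fin k → ℤ, B *ᵥ c = v) ↔
      ∃ d : ℤ, d ≠ 0 ∧ ∃ w : Fin n → ℤ, d • v = A *ᵥ w

/-- the largest absolute value of the entries -/
noncomputable def ht (A : Matrix (Fin n) (Fin n) ℤ) : ℝ := ⨆ p : Fin n × Fin n, |(A p.1 p.2 : ℝ)|

/-- the covolume of the lattice generated by the columns -/
noncomputable def covol (B : Matrix (Fin n) (Fin k) ℤ) : ℝ := √((Bᵀ * B).det : ℝ)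

/-- the rational points of `U` with anticanonical height at most `T` -/
def Points (ε : ℤ) (n k : ℕ) (T : ℝ) : Set (Matrix (Fin n) (Fin n) ℤ) :=
  {A | IsPoint ε k A ∧ ∃ B : Matrix (Fin n) (Fin k) ℤ, IsBasis A B ∧
    ht A ^ ((k : ℝ) * (k + ε) / 2) * covol B ^ ((n : ℝ) - k - ε) ≤ T}

theorem le_ht (A : Matrix (Fin n) (Fin n) ℤ) (i j : Fin n) : |(A i j : ℝ)| ≤ ht A :=
  le_ciSup (f := fun p : Fin n × Fin n => |(A p.1 p.2 : ℝ)|) (Set.finite_range _).bddAbove (i, j)

theorem ht_nonneg (A : Matrix (Fin n) (Fin n) ℤ) : 0 ≤ ht A :=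
  Real.iSup_nonneg fun _ => abs_nonneg _

theorem ht_pos {A : Matrix (Fin n) (Fin n) ℤ} (h : ∀ d : ℤ, (∀ i j, d ∣ A i j) → IsUnit d) :
    0 < ht A := by
  by_contra hneg
  have h0 : ∀ i j, (0 : ℤ) ∣ A i j := fun i j => by
    have h3 : |(A i j : ℝ)| ≤ 0 := (le_ht A i j).trans (not_lt.1 hneg)
    have h4 : (A i j : ℝ) = 0 := abs_nonpos_iff.1 h3
    rw [zero_dvd_iff]
    exact_mod_cast h4
  exact not_isUnit_zero (h 0 h0)

/-- replacing the height by its upper bounds does not change the inequality -/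
theorem height_iff (hn : 0 < n) {A : Matrix (Fin n) (Fin n) ℤ}
    (hA : ∀ d : ℤ, (∀ i j, d ∣ A i j) → IsUnit d) {a b T : ℝ} (ha : 0 ≤ a) :
    (∃ B : Matrix (Fin n) (Fin k) ℤ, IsBasis A B ∧ ht A ^ a * covol B ^ b ≤ T) ↔
    ∃ (B : Matrix (Fin n) (Fin k) ℤ) (h : ℝ), Pool.Agent.U115.WM.IsBas A B ∧ 0 < h ∧
      (∀ i j, |(A i j : ℝ)| ≤ h) ∧ h ^ a * Pool.Agent.U115.WM.cov B ^ b ≤ T := by
  constructor
  · rintro ⟨B, hB, hT⟩
    exact ⟨B, ht A, hB, ht_pos hA, le_ht A, hT⟩
  · rintro ⟨B, h, hB, h0, hh, hT⟩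
    have : Nonempty (Fin n × Fin n) := ⟨(⟨0, hn⟩, ⟨0, hn⟩)⟩
    have hle : ht A ≤ h := ciSup_le fun p => hh p.1 p.2
    refine ⟨B, hB, le_trans ?_ hT⟩
    exact mul_le_mul_of_nonneg_right (Real.rpow_le_rpow (ht_nonneg A) hle ha)
      (Real.rpow_nonneg (Real.sqrt_nonneg _) _)

theorem points_one (n k : ℕ) (hn : 0 < n) (T : ℝ) :
    Points 1 n k T = Pool.Agent.U115.WM.SymPts n k (k * (k + 1) / 2) (n - k - 1) T := by
  ext A
  have key : ∀ hA : ∀ d : ℤ, (∀ i j, d ∣ A i j) → IsUnit d, _ := fun hA =>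
    height_iff (k := k) hn hA (a := (k : ℝ) * (k + 1) / 2) (b := (n : ℝ) - k - 1) (T := T)
      (by positivity)
  simp only [Points, IsPoint, Pool.Agent.U115.WM.SymPts, Set.mem_ofPred_eq, one_smul, Int.cast_one]
  constructor
  · rintro ⟨⟨h1, h2, h3⟩, h4⟩
    exact ⟨h1, h2, h3, (key h2).1 h4⟩
  · rintro ⟨h1, h2, h3, h4⟩
    exact ⟨⟨h1, h2, h3⟩, (key h2).2 h4⟩

theorem points_neg_one (n k : ℕ) (hn : 0 < n) (hk : 1 ≤ k) (T : ℝ) :
    Points (-1) n k T = Pool.Agent.U115.WM.AltPts n k (k * (k - 1) / 2) (n - k + 1) T := by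
  ext A
  have hk1 : (1 : ℝ) ≤ k := by exact_mod_cast hk
  have hexp : (0 : ℝ) ≤ (k : ℝ) * (k - 1) / 2 := by
    have : 0 ≤ (k : ℝ) * (k - 1) := mul_nonneg (by linarith) (by linarith)
    linarith
  have key : ∀ hA : ∀ d : ℤ, (∀ i j, d ∣ A i j) → IsUnit d, _ := fun hA =>
    height_iff (k := k) hn hA (a := (k : ℝ) * (k - 1) / 2) (b := (n : ℝ) - k + 1) (T := T) hexp
  have e1 : (k : ℝ) * (k + ((-1 : ℤ) : ℝ)) / 2 = (k : ℝ) * (k - 1) / 2 := by push_cast; ring
  have e2 : (n : ℝ) - k - ((-1 : ℤ) : ℝ) = (n : ℝ) - k + 1 := by push_cast; ring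
  simp only [Points, IsPoint, Pool.Agent.U115.WM.AltPts, Set.mem_ofPred_eq, neg_smul, one_smul,
    e1, e2]
  constructor
  · rintro ⟨⟨h1, h2, h3⟩, h4⟩
    exact ⟨h1, h2, h3, (key h2).1 h4⟩
  · rintro ⟨h1, h2, h3, h4⟩
    exact ⟨⟨h1, h2, h3⟩, (key h2).2 h4⟩

theorem result (ε : ℤ) (n k : ℕ) (hε : ε = 1 ∨ ε = -1 ∧ Even k) (hk : 3 ≤ k) (hn : k < n) :
    (∀ A : Matrix (Fin n) (Fin n) ℤ, IsPoint ε k A →
      (∃ B : Matrix (Fin n) (Fin k) ℤ, IsBasis A B) ∧
      ∀ B B' : Matrix (Fin n) (Fin k) ℤ, IsBasis A B → IsBasis A B' → covol B = covol B') ∧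
    ∃ c C T₁ : ℝ, 0 < c ∧ 2 ≤ T₁ ∧ ∀ T : ℝ, T₁ ≤ T → (Points ε n k T).Finite ∧
      c * (T * Real.log T) ≤ ((Points ε n k T).ncard : ℝ) ∧
      ((Points ε n k T).ncard : ℝ) ≤ C * (T * Real.log T) := by
  have hE := Pool.Agent.U618.WM.t_EXB
  have hV := Pool.Agent.U333.WM.t_COV
  refine ⟨fun A hA => ⟨hE n n k A hA.2.2, fun B B' h h' => ?_⟩, ?_⟩
  · refine (hV.1 n k B B' h.1 h'.1 ?_).2
    ext v
    exact (h.2 v).trans (h'.2 v).symm
  · rcases hε with rfl | ⟨rfl, hev⟩
    · obtain ⟨c, C, T₁, h1, h2, h3⟩ := Pool.Agent.U115.WN.t_osym n k hk hn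
      refine ⟨c, C, T₁, h1, h2, fun T hT => ?_⟩
      rw [points_one n k (by omega) T]
      exact h3 T hT
    · have hk4 : 4 ≤ k := by
        obtain ⟨m, rfl⟩ := hev
        omega
      obtain ⟨c, C, T₁, h1, h2, h3⟩ := Pool.Agent.U115.WN.t_oalt n k hk4 hev hn
      refine ⟨c, C, T₁, h1, h2, fun T hT => ?_⟩
      rw [points_neg_one n k (by omega) (by omega) T]
      exact h3 T hT

end Pool.Agent.Results.MP_1acd66_nt.RankKMatricesOrder
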