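import Mathlib
import Pool.Agent.U96.MP.Smooth

/-!
Manin's conjecture over the rational numbers, for all adelic anticanonical heights, for products of
smooth complete intersections of multilinear hypersurfaces and of projective spaces.

* `Tuple n K`: families `x` of vectors `x v` of length `n v`, `v = 1, ..., m`: the coordinates of
  the points of the product of the projective spaces of dimensions `n v - 1`.
* `System n k`: `k` forms with integer coefficients; the `i`-th form is linear in each of the
  vectors `x v` with `v` in the set `e i` and does not depend on the others; `T i` is the array of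
  its coefficients and `form F i x` its value.
* `OnX F x`: all forms vanish at `x`; this defines `X`.
* `block v`: the number of the block of the vector `x v`; all vectors of a form are in one block.
  The forms with vectors in the block `c` define a complete intersection `X_c` in the product of the
  projective spaces which belong to the vectors of the block which occur in a form, and `X` is
  the product of the `X_c` and of the projective spaces of dimension `n v - 1` for the `v` which
  occur in no form.
* `Smooth F block`: every `X_c` is a smooth complete intersection (the Jacobian criterion at all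
  complex points: the gradients of the forms of the block are linearly independent).
* `deg F v`: the number of the forms which depend on `x v`; `size F block c`, `vectors F block c`,
  `forms F block c`: the sum of the numbers of vectors in the forms of the block `c`, the number of
  its vectors which occur in a form, and the number of its forms.
* `Large F block`: `n v ≥ (vectors c - 1) size c + 2 deg F v - forms c` if `x v` occurs in a form and is
  in the block `c`, and `n v ≥ 2` if `x v` occurs in no form.
* `LocalFactor F φ`: a positive continuous function on `X(K)`, written as a function of the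
  coordinate vectors, which does not change if the vectors are multiplied by nonzero scalars.
* `height F S φ₀ φ P` for a family `P` of rational points of the projective spaces: the adelic
  height `∏_v H(P_v) ^ (n v - deg F v) φ₀(P) ∏_{p ∈ S} φ_p(P)`, where `H` is the usual height of a
  rational point of a projective space (of Mathlib).  The anticanonical bundle of `X` is
  `O(n v - deg F v)_v`, the canonical metric at a place is given by the maximum norm, and every
  other metric differs from it by a positive continuous function on `X(ℚ_p)`; so these are the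
  heights of all adelic metrics on the anticanonical bundle, not only the products of heights of the
  factors of `X`.
* `Multihomogeneous w`: the polynomial `w` is homogeneous in the coordinates of each of the vectors.

The theorem: let `m ≥ 2`.  There is a set `Ω` of multihomogeneous polynomials with integer
coefficients, which depends only on `X`, such that for every adelic anticanonical height the number
of all rational points of height at most `B` in the Zariski open subset `U` of `X` where not all
members of `Ω` vanish is asymptotic to `c B (log B) ^ (m - 1)` with some `c > 0`.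
-/

set_option autoImplicit false

namespace Pool.Agent.Results.MP_1acd66_nt.SmoothProductsAllHeights

open Filter Topology Function

variable {m k : ℕ} {n : Fin m → ℕ}

/-- families of vectors of lengths `n v` -/
abbrev Tuple (n : Fin m → ℕ) (K : Type*) : Type _ := ∀ v, Fin (n v) → K

/-- `k` multilinear forms -/
structure System (n : Fin m → ℕ) (k : ℕ) where
  /-- the set of the vectors which occur in the `i`-th form -/
  e : Fin k → Finset (Fin m)
  /-- the coefficients of the `i`-th form -/
  T : ∀ i, (∀ v : e i, Fin (n v)) → ℤ

/-- the value of the `i`-th form -/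
def form (F : System n k) {K : Type*} [CommRing K] (i : Fin k) (x : Tuple n K) : K :=
  ∑ j : (∀ v : F.e i, Fin (n v)), (F.T i j : K) * ∏ v : F.e i, x v (j v)

/-- the equations of `X` -/
def OnX (F : System n k) {K : Type*} [CommRing K] (x : Tuple n K) : Prop :=
  ∀ i, form F i x = 0

/-- the gradient of the `i`-th form -/
def grad (F : System n k) {K : Type*} [CommRing K] (i : Fin k) (x : Tuple n K) : Tuple n K :=
  fun v l => if v ∈ F.e i then form F i (update x v (Pi.single l 1)) else 0

/-- the forms of the block `c` -/
abbrev Forms (F : System n k) (block : Fin m → Fin m) (c : Fin m) : Type :=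
  {i : Fin k // ∀ v ∈ F.e i, block v = c}

/-- the Jacobian criterion for the factors of `X` -/
def Smooth (F : System n k) (block : Fin m → Fin m) : Prop :=
  ∀ c, ∀ x : Tuple n ℂ, (∀ v, x v ≠ 0) → (∀ i : Forms F block c, form F i.1 x = 0) →
    LinearIndependent ℂ fun i : Forms F block c => grad F i.1 x

/-- the number of the forms which depend on `x v` -/
def deg (F : System n k) (v : Fin m) : ℕ := (Finset.univ.filter fun i => v ∈ F.e i).card

/-- the sum of the numbers of vectors in the forms of the block `c` -/
def size (F : System n k) (block : Fin m → Fin m) (c : Fin m) : ℕ :=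
  ∑ i ∈ Finset.univ.filter (fun i => ∀ v ∈ F.e i, block v = c), (F.e i).card

/-- the number of the vectors of the block `c` which occur in a form -/
def vectors (F : System n k) (block : Fin m → Fin m) (c : Fin m) : ℕ :=
  (Finset.univ.filter fun w => (∃ i, w ∈ F.e i) ∧ block w = c).card

/-- the number of the forms of the block `c` -/
def forms (F : System n k) (block : Fin m → Fin m) (c : Fin m) : ℕ :=
  (Finset.univ.filter fun i : Fin k => ∀ w ∈ F.e i, block w = c).card

/-- the condition on the dimensions -/
structure Large (F : System n k) (block : Fin m → Fin m) : Prop where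
  occurs : ∀ v, (∃ i, v ∈ F.e i) → (vectors F block (block v) - 1) * size F block (block v) +
    2 * deg F v ≤ n v + forms F block (block v)
  free : ∀ v, (∀ i, v ∉ F.e i) → 2 ≤ n v

/-- positive continuous functions on `X(K)` -/
structure LocalFactor {K : Type*} [NormedField K] (F : System n k) (φ : Tuple n K → ℝ) :
    Prop where
  continuous : ContinuousOn φ {x | (∀ v, x v ≠ 0) ∧ OnX F x}
  positive : ∀ x, (∀ v, x v ≠ 0) → OnX F x → 0 < φ x
  invariant : ∀ x, (∀ v, x v ≠ 0) → OnX F x → ∀ c : Fin m → K, (∀ v, c v ≠ 0) →
    φ (fun v => c v • x v) = φ x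

/-- extension of scalars -/
def ext (K : Type*) [Field K] (x : Tuple n ℚ) : Tuple n K := fun v l => (x v l : K)

instance (p : Nat.Primes) : Fact (p : ℕ).Prime := ⟨p.2⟩

/-- the adelic anticanonical height of a family of rational points of the projective spaces -/
noncomputable def height (F : System n k) (S : Finset Nat.Primes) (φ₀ : Tuple n ℝ → ℝ)
    (φ : ∀ p : Nat.Primes, Tuple n ℚ_[p] → ℝ) (P : ∀ v, Projectivization ℚ (Fin (n v) → ℚ)) : ℝ :=
  (∏ v, (P v).mulHeight ^ (n v - deg F v)) *
    (φ₀ (ext ℝ fun v => (P v).rep) * ∏ p ∈ S, φ p (ext ℚ_[p] fun v => (P v).rep))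

/-- homogeneous in the coordinates of each vector -/
def Multihomogeneous (w : MvPolynomial (Σ v, Fin (n v)) ℤ) : Prop :=
  ∃ δ : Fin m → ℕ, ∀ β ∈ w.support, ∀ v, ∑ l, β ⟨v, l⟩ = δ v

/-- a vector which occurs in a form is long -/
theorem dims (F : System n k) (block : Fin m → Fin m) (h2 : ∀ i, 2 ≤ (F.e i).card)
    (hb : ∀ i, ∀ u ∈ F.e i, ∀ v ∈ F.e i, block u = block v) (hn : Large F block) (v : Fin m)
    (hv : ∃ i, v ∈ F.e i) : deg F v ≤ n v ∧ 1 ≤ n v := by
  have h1 := hn.occurs v hv
  obtain ⟨i, hi⟩ := hv
  have h3 : 2 ≤ vectors F block (block v) := by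
    refine (h2 i).trans (Finset.card_le_card fun w hw => ?_)
    rw [Finset.mem_filter]
    exact ⟨Finset.mem_univ w, ⟨i, hw⟩, hb i w hw v hi⟩
  have h4 : 2 * forms F block (block v) ≤ size F block (block v) := by
    unfold forms size
    rw [Finset.card_eq_sum_ones, Finset.mul_sum]
    exact Finset.sum_le_sum fun i _ => by have := h2 i; omega
  have h5 : size F block (block v) ≤ (vectors F block (block v) - 1) * size F block (block v) :=
    Nat.le_mul_of_pos_left _ (by omega)
  have h6 : 1 ≤ deg F v := Finset.card_pos.2 ⟨i, by
    rw [Finset.mem_filter]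
    exact ⟨Finset.mem_univ i, hi⟩⟩
  omega

theorem result (hm : 2 ≤ m) (F : System n k) (block : Fin m → Fin m)
    (h2 : ∀ i, 2 ≤ (F.e i).card) (hb : ∀ i, ∀ u ∈ F.e i, ∀ v ∈ F.e i, block u = block v)
    (hF : Smooth F block) (hn : Large F block) :
    ∃ Ω : Set (MvPolynomial (Σ v, Fin (n v)) ℤ), (∀ w ∈ Ω, Multihomogeneous w) ∧
      ∀ (S : Finset Nat.Primes) (φ₀ : Tuple n ℝ → ℝ) (φ : ∀ p : Nat.Primes, Tuple n ℚ_[p] → ℝ),
        LocalFactor F φ₀ → (∀ p ∈ S, LocalFactor F (φ p)) →
        ∃ c : ℝ, 0 < c ∧ Tendsto (fun B : ℝ =>
          (({P : ∀ v, Projectivization ℚ (Fin (n v) → ℚ) | OnX F (fun v => (P v).rep) ∧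
            (∃ w ∈ Ω, MvPolynomial.aeval (fun q : (Σ v, Fin (n v)) => (P q.1).rep q.2) w ≠ 0) ∧
            height F S φ₀ φ P ≤ B} : Set _).ncard : ℝ) /
              (B * Real.log B ^ (m - 1))) atTop (𝓝 c) := by
  classical
  set G : N852.MM.Sys n k := ⟨F.e, F.T⟩ with hG
  have hdeg : ∀ v, N852.MM.dg G v = deg F v := fun v => Fintype.card_subtype _
  have hcard : Fintype.card (N852.MM.Vo (⟨0, by omega⟩ : Fin m)) = m - 1 := by
    rw [Fintype.card_subtype_compl]
    simp
  have hV : ∀ v : Fin m, ∃ u, u ≠ v := by
    intro v
    have : Nontrivial (Fin m) := Fin.nontrivial_iff_two_le.2 hm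
    exact exists_ne v
  have hsz : ∀ c, U96.MP.szB G block c = size F block c := by
    intro c
    unfold U96.MP.szB size
    refine Finset.sum_congr ?_ fun _ _ => rfl
    ext i
    simp [hG]
  have h1 : ∀ v, 1 ≤ n v := by
    intro v
    by_cases hv : ∃ i, v ∈ F.e i
    · exact (dims F block h2 hb hn v hv).2
    · push Not at hv
      have := hn.free v hv
      omega
  have hle : ∀ v, deg F v ≤ n v := by
    intro v
    by_cases hv : ∃ i, v ∈ F.e i
    · exact (dims F block h2 hb hn v hv).1
    · push Not at hv
      have h3 : deg F v = 0 := by
        unfold deg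
        rw [Finset.card_eq_zero, Finset.filter_eq_empty_iff]
        exact fun i _ => hv i
      omega
  have hS : ∀ c, ∀ x : N852.MM.Tup n ℂ, (∀ v, x v ≠ 0) →
      (∀ i, (∀ v ∈ G.e i, block v = c) → N852.MM.ev G i x = 0) →
      ∀ s : Fin k → ℂ, (∀ i, s i ≠ 0 → ∀ v ∈ G.e i, block v = c) →
      (∀ v (l : Fin (n v)), ∑ i : N852.MM.Wi G v, s i * N852.MM.der G v x i l = 0) → s = 0 := by
    intro c x hx hi s hs0 hs
    have h3 := hF c x hx fun i => hi i.1 i.2
    rw [Fintype.linearIndependent_iff] at h3
    have h5 : ∀ i : Forms F block c, s i.1 = 0 := by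
      refine h3 (fun i => s i.1) ?_
      funext v l
      rw [Finset.sum_apply, Finset.sum_apply]
      have h4 : ∑ i : {i : Fin k // v ∈ F.e i},
          s i * form F i.1 (update x v (Pi.single l 1)) = 0 := hs v l
      rw [Pi.zero_apply, Pi.zero_apply, ← h4,
        ← Finset.sum_subtype (Finset.univ.filter fun i => v ∈ F.e i) (by simp)
          (fun i => s i * form F i (update x v (Pi.single l 1))), Finset.sum_filter]
      rw [← Finset.sum_subtype (Finset.univ.filter fun i => ∀ v ∈ F.e i, block v = c) (by simp)
          (fun i => (s i • grad F i x) v l)]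
      rw [Finset.sum_filter]
      refine Finset.sum_congr rfl fun i _ => ?_
      by_cases h6 : ∀ v ∈ F.e i, block v = c
      · rw [if_pos h6]
        show s i * grad F i x v l = _
        unfold grad
        split_ifs
        · rfl
        · rw [mul_zero]
      · rw [if_neg h6]
        have h7 : s i = 0 := by
          by_contra h8
          exact h6 (hs0 i h8)
        rw [h7, zero_mul]
        split_ifs <;> rfl
    funext i
    by_cases h6 : ∀ v ∈ F.e i, block v = c
    · exact h5 ⟨i, h6⟩
    · by_contra h8
      exact h6 (hs0 i h8)
  obtain ⟨Ω, hΩ, hmain⟩ := U96.MP.main_smooth (F := G) (a := fun v => n v - deg F v) hV h1 h2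
    (fun v => by rw [hdeg v]; exact Nat.sub_add_cancel (hle v))
    (fun v hv => hn.free v fun i hi => hv ⟨i, hi⟩) (lab := block) hb hS
    (fun v hv => by
      rw [hsz, hdeg]
      have h3 := hn.occurs v hv
      unfold vectors forms at h3
      convert h3 using 6
      exact Iff.rfl) ⟨0, by omega⟩
  refine ⟨Ω, hΩ, fun S φ₀ φ h₀ h => ?_⟩
  obtain ⟨c, hc', hlim⟩ := hmain S φ₀ ⟨h₀.1, h₀.2, h₀.3⟩ φ
    fun p hp => ⟨(h p hp).1, (h p hp).2, (h p hp).3⟩
  rw [hcard] at hlim
  exact ⟨c, hc', hlim⟩

end Pool.Agent.Results.MP_1acd66_nt.SmoothProductsAllHeights
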